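import Pool.Agent.Lib.MP_b03f2e_al.Affine
import Pool.Agent.Lib.MP_b03f2e_al.Double
import Pool.Agent.Lib.MP_b03f2e_al.Torsion
import Pool.Agent.Lib.MP_b03f2e_al.Will5B
import Pool.Agent.Lib.MP_b03f2e_al.Ops5

namespace Pool.Agent.Results.MP_b03f2e_al.NonPerverse

open Pool.Agent.PCan

theorem not_allPerv (p : ℕ) [hp : Fact p.Prime] (k n : ℕ) (hk : p < Nat.fib (k + 3))
    (hn : 14 * k + 16 ≤ n) : ¬ AllPerv (ZMod p) n := by
  intro hA
  obtain ⟨ops, B, hE, hB0, hpB, hl, hc⟩ := F5.exists_ops hp.out.two_le hk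
  obtain ⟨v, y, c, hW⟩ := F5.exists_WD (n := n) (p := p) (a := ops.count F5.Op.x) (by omega) hE
    hB0 hpB rfl hl
  obtain ⟨w, K, hw, hG, hy⟩ := torsion hW hA
  obtain ⟨t, w', K', x, y', v', ht, hv, hw', hx, hy', hG', hne⟩ := delete hw K y hG hy
  exact double hA (by omega) hw' hv hx hy' hG' hne

theorem result (p : ℕ) [Fact p.Prime] (k n : ℕ) [NeZero n] (hk : p < Nat.fib (k + 3))
    (hn : 14 * k + 16 ≤ n) :
    ∃ w : List (Fin n), lenA n (prodA n w) = w.length ∧ IsMaxA n (prodA n w) ∧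
      ∀ E, IsSummand n (ZMod p) w E → stalk n (ZMod p) w E (prodA n w) ≠ ⊥ →
        ∀ (c : (ℤ → ℤ) → (ℤ → ℤ) → LaurentPolynomial ℤ) (a : (ℤ → ℤ) →₀ LaurentPolynomial ℤ),
          (∀ z y i, i < 0 → (c z y).coeff i = 0) →
          (∀ y, IsMaxA n y → ∀ d : ℕ,
            (a.sum fun z az => az * c z y).coeff ((w.length : ℤ) - lenA n y - 2 * d) =
              gens n (ZMod p) (stalk n (ZMod p) w E y) d) →
          ∃ z, ∀ m : ℤ, a z ≠ LaurentPolynomial.C m := by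
  have h2 : 2 ≤ n := by omega
  have hA := not_allPerv p k n hk hn
  unfold AllPerv at hA
  push Not at hA
  obtain ⟨z, K0, hz, hK0, ht, hP⟩ := hA
  obtain ⟨y, d, hd, hst⟩ := stalk_of_not_perv hz hK0 ht hP
  have hU : liftP (1 : W n) ∘ UU n = UU n := by rw [liftP_one]; rfl
  obtain ⟨u, hu, hl⟩ := exists_wordA h2 (affP_liftP_UU (1 : W n))
  rw [hU] at hu hl
  have hpr : prodA n (u ++ z.map Let.lo) = liftP (prodL z) ∘ UU n := by rw [prodA_append, hu]
  refine ⟨u ++ z.map Let.lo, ?_, ?_, fun E' hE' h0 c a hc ha => ?_⟩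
  · rw [hpr, lenA_eq h2 (affP_liftP_UU _), shi_liftP_UU, hz.len, List.length_append,
      List.length_map, hl]
    omega
  · rw [hpr]
    exact isMax_liftP_UU h2 _
  obtain ⟨E, hE, hs⟩ := hE'.exists_lin
  simp only [← hs] at h0 ha
  obtain ⟨L, hL, hLt, hLF⟩ := aff_restrict h2 hu hl hz hE h0
  obtain ⟨m, m', hm, _, hmm, hg⟩ := hst L hL hLt
  obtain ⟨F, hF, hFe⟩ := hLF d m m' hm hmm
  have hne := gens_ne_zero h2 hu hl (y := y) hF (by simpa only [hFe] using hg)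
  have h := ha _ (isMax_liftP_UU h2 y) d
  by_contra hcon
  push Not at hcon
  apply hne
  have hi : ((u ++ z.map Let.lo).length : ℤ) - lenA n (liftP y ∘ UU n) - 2 * d < 0 := by
    rw [lenA_eq h2 (affP_liftP_UU _), shi_liftP_UU, List.length_append, List.length_map, hl]
    push_cast
    omega
  have h0' : (a.sum fun x ax => ax * c x (liftP y ∘ UU n)).coeff
      (((u ++ z.map Let.lo).length : ℤ) - lenA n (liftP y ∘ UU n) - 2 * d) = 0 := by
    rw [Finsupp.sum, AddMonoidAlgebra.coeff_sum, Finsupp.finsetSum_apply]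
    refine Finset.sum_eq_zero fun x _ => ?_
    obtain ⟨b, hb⟩ := hcon x
    rw [hb, ← LaurentPolynomial.smul_eq_C_mul, AddMonoidAlgebra.coeff_smul, Finsupp.smul_apply,
      hc _ _ _ hi, smul_zero]
  rw [h0'] at h
  exact_mod_cast h.symm

end Pool.Agent.Results.MP_b03f2e_al.NonPerverse
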